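import Pool.Agent.helper54.TS.Spec

/-!
Row ts:PLN (MP_2b41e9_nt): planning decreases the norm.
-/

set_option autoImplicit false

open Polynomial Finset

noncomputable section

namespace Pool.Agent.TS

open Pool.Agent.PSA (IsSalem Indep Fac)

theorem PLN_term (w : Circle) (x : ℂ) (n : ℕ) :
    ‖x - ((w : ℂ)⁻¹) ^ n‖ ^ 2 = ‖x‖ ^ 2 - 2 * (x * (w : ℂ) ^ n).re + 1 := by
  have hw : ‖(w : ℂ)‖ = 1 := Circle.norm_coe w
  have hinv : (w : ℂ)⁻¹ = (starRingEnd ℂ) (w : ℂ) := by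
    rw [Complex.inv_def, Complex.normSq_eq_norm_sq, hw]
    simp
  have h1 : Complex.normSq (x - ((w : ℂ)⁻¹) ^ n) = Complex.normSq x + Complex.normSq (((w : ℂ)⁻¹) ^ n)
      - 2 * (x * (starRingEnd ℂ) (((w : ℂ)⁻¹) ^ n)).re := Complex.normSq_sub _ _
  have h2 : Complex.normSq (((w : ℂ)⁻¹) ^ n) = 1 := by
    rw [Complex.normSq_eq_norm_sq, norm_pow, norm_inv, hw]
    simp
  have h3 : (starRingEnd ℂ) (((w : ℂ)⁻¹) ^ n) = (w : ℂ) ^ n := by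
    rw [hinv, map_pow, Complex.conj_conj]
  rw [← Complex.normSq_eq_norm_sq, ← Complex.normSq_eq_norm_sq, h1, h2, h3]
  ring

theorem PLN : PLN_stmt := by
  intro k w k0 M x d hk0 hM hN hre
  set N : ℝ := Real.sqrt (∑ j, ‖x j‖ ^ 2) with hNdef
  have hN0 : 0 ≤ N := Real.sqrt_nonneg _
  have hN2 : N ^ 2 = ∑ j, ‖x j‖ ^ 2 := Real.sq_sqrt (Finset.sum_nonneg (fun j _ => by positivity))
  have hk : (0 : ℝ) ≤ k := Nat.cast_nonneg k
  have hkk : 0 ≤ (k : ℝ) / k0 := by positivity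
  have hsum : ∑ j, ‖x j - ((w j : ℂ)⁻¹) ^ (d + 1)‖ ^ 2 = N ^ 2 - 2 * (∑ j, x j * (w j : ℂ) ^ (d + 1)).re + k := by
    have h1 : ∀ j ∈ (Finset.univ : Finset (Fin k)), ‖x j - ((w j : ℂ)⁻¹) ^ (d + 1)‖ ^ 2
        = ‖x j‖ ^ 2 - 2 * (x j * (w j : ℂ) ^ (d + 1)).re + 1 := fun j _ => PLN_term (w j) (x j) (d + 1)
    rw [Finset.sum_congr rfl h1, Finset.sum_add_distrib, Finset.sum_sub_distrib, ← Finset.mul_sum, Complex.re_sum, hN2]
    simp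
  have hMpos : 0 ≤ M - k0 / 2 := by linarith
  have hkM : (k : ℝ) ≤ k0 * M := by
    have h1 : (k : ℝ) / k0 ≤ M := by linarith
    rw [div_le_iff₀ hk0] at h1
    linarith
  rw [hsum]
  apply Real.sqrt_le_iff.mpr
  refine ⟨hMpos, ?_⟩
  by_cases hc : N ≤ 2 * k0
  · have h1 : N ^ 2 - 2 * (k0 * N) ≤ 0 := by nlinarith
    have h2 : (k : ℝ) + 1 ≤ M - k0 / 2 := by linarith
    have h3 : ((k : ℝ) + 1) ^ 2 ≤ (M - k0 / 2) ^ 2 := pow_le_pow_left₀ (by positivity) h2 2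
    nlinarith
  · push Not at hc
    have h1 : N * (N - 2 * k0) ≤ M * (M - 2 * k0) := mul_le_mul hN (by linarith) (by linarith) (by linarith)
    nlinarith

end Pool.Agent.TS
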